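import Pool.Agent.TH600.YT.Defs

set_option autoImplicit false

open MeasureTheory Real Set
open scoped ContDiff

namespace Pool.Agent.TH600.YT

/-- The closed cylinder `{x² + y² ≤ 1, 0 ≤ z ≤ L}`. -/
def cCyl (L : ℝ) : Set (ℝ × ℝ × ℝ) := {p | p.1 ^ 2 + p.2.1 ^ 2 ≤ 1 ∧ 0 ≤ p.2.2 ∧ p.2.2 ≤ L}

/-- The open unit disc in `ℝ × ℝ`. -/
def Dsc : Set (ℝ × ℝ) := {p | p.1 ^ 2 + p.2 ^ 2 < 1}

/-- The closed unit disc in `ℝ × ℝ`. -/
def cDsc : Set (ℝ × ℝ) := {p | p.1 ^ 2 + p.2 ^ 2 ≤ 1}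

theorem Cyl_subset (L : ℝ) : Cyl L ⊆ cCyl L := fun _ hp => ⟨hp.1.le, hp.2.1.le, hp.2.2.le⟩

theorem isOpen_Cyl (L : ℝ) : IsOpen (Cyl L) := by
  have h1 : IsOpen {p : ℝ × ℝ × ℝ | p.1 ^ 2 + p.2.1 ^ 2 < 1} :=
    isOpen_lt (by fun_prop) (by fun_prop)
  have h2 : IsOpen {p : ℝ × ℝ × ℝ | 0 < p.2.2} := isOpen_lt (by fun_prop) (by fun_prop)
  have h3 : IsOpen {p : ℝ × ℝ × ℝ | p.2.2 < L} := isOpen_lt (by fun_prop) (by fun_prop)
  have : Cyl L = {p : ℝ × ℝ × ℝ | p.1 ^ 2 + p.2.1 ^ 2 < 1} ∩ ({p | 0 < p.2.2} ∩ {p | p.2.2 < L}) := by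
    ext p; simp [Cyl]
  rw [this]
  exact h1.inter (h2.inter h3)

theorem measurableSet_Cyl (L : ℝ) : MeasurableSet (Cyl L) := (isOpen_Cyl L).measurableSet

theorem isCompact_cCyl (L : ℝ) : IsCompact (cCyl L) := by
  have hcl : IsClosed (cCyl L) := by
    have h1 : IsClosed {p : ℝ × ℝ × ℝ | p.1 ^ 2 + p.2.1 ^ 2 ≤ 1} :=
      isClosed_le (by fun_prop) (by fun_prop)
    have h2 : IsClosed {p : ℝ × ℝ × ℝ | 0 ≤ p.2.2} := isClosed_le (by fun_prop) (by fun_prop)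
    have h3 : IsClosed {p : ℝ × ℝ × ℝ | p.2.2 ≤ L} := isClosed_le (by fun_prop) (by fun_prop)
    have : cCyl L = {p : ℝ × ℝ × ℝ | p.1 ^ 2 + p.2.1 ^ 2 ≤ 1} ∩
        ({p | 0 ≤ p.2.2} ∩ {p | p.2.2 ≤ L}) := by
      ext p; simp [cCyl]
    rw [this]
    exact h1.inter (h2.inter h3)
  have hsub : cCyl L ⊆ Icc (-1) 1 ×ˢ (Icc (-1) 1 ×ˢ Icc 0 L) := by
    rintro ⟨x, y, z⟩ ⟨h1, h2, h3⟩
    simp only at h1 h2 h3
    refine ⟨⟨?_, ?_⟩, ⟨?_, ?_⟩, ⟨h2, h3⟩⟩ <;> simp only <;> nlinarith [sq_nonneg x, sq_nonneg y]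
  exact (isCompact_Icc.prod (isCompact_Icc.prod isCompact_Icc)).of_isClosed_subset hcl hsub

theorem intOn {L : ℝ} {F : ℝ × ℝ × ℝ → ℝ} (hF : ContinuousOn F (cCyl L)) :
    IntegrableOn F (Cyl L) :=
  (hF.integrableOn_compact (isCompact_cCyl L)).mono_set (Cyl_subset L)

theorem isOpen_Dsc : IsOpen Dsc := isOpen_lt (by fun_prop) (by fun_prop)

theorem measurableSet_Dsc : MeasurableSet Dsc := isOpen_Dsc.measurableSet

theorem isCompact_cDsc : IsCompact cDsc := by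
  have hcl : IsClosed cDsc := isClosed_le (by fun_prop) (by fun_prop)
  have hsub : cDsc ⊆ Icc (-1) 1 ×ˢ Icc (-1) 1 := by
    rintro ⟨x, y⟩ h1
    simp only [cDsc, Set.mem_ofPred_eq] at h1
    refine ⟨⟨?_, ?_⟩, ⟨?_, ?_⟩⟩ <;> simp only <;> nlinarith [sq_nonneg x, sq_nonneg y]
  exact (isCompact_Icc.prod isCompact_Icc).of_isClosed_subset hcl hsub

theorem intOn_disc {F : ℝ × ℝ → ℝ} (hF : ContinuousOn F cDsc) : IntegrableOn F Dsc :=
  (hF.integrableOn_compact isCompact_cDsc).mono_set (fun p (hp : p.1 ^ 2 + p.2 ^ 2 < 1) => hp.le)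

/-- Fubini for the cylinder. -/
theorem cyl_fubini {L : ℝ} (hL : 0 ≤ L) {F : ℝ × ℝ × ℝ → ℝ} (hF : ContinuousOn F (cCyl L)) :
    ∫ p in Cyl L, F p = ∫ z in (0 : ℝ)..L, ∫ q in Dsc, F (q.1, q.2, z) := by
  have hmp : MeasurePreserving (MeasurableEquiv.prodAssoc : (ℝ × ℝ) × ℝ ≃ᵐ ℝ × ℝ × ℝ)
      (volume : Measure ((ℝ × ℝ) × ℝ)) (volume : Measure (ℝ × ℝ × ℝ)) :=
    volume_preserving_prodAssoc
  have hpre : (MeasurableEquiv.prodAssoc : (ℝ × ℝ) × ℝ ≃ᵐ ℝ × ℝ × ℝ) ⁻¹' (Cyl L) =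
      Dsc ×ˢ Ioo 0 L := by
    ext ⟨⟨x, y⟩, z⟩
    simp [Cyl, Dsc, MeasurableEquiv.prodAssoc]
  have hint : IntegrableOn (fun r : (ℝ × ℝ) × ℝ => F (r.1.1, r.1.2, r.2)) (Dsc ×ˢ Ioo 0 L)
      ((volume : Measure (ℝ × ℝ)).prod (volume : Measure ℝ)) := by
    have := (hmp.integrableOn_comp_preimage
      (MeasurableEquiv.prodAssoc : (ℝ × ℝ) × ℝ ≃ᵐ ℝ × ℝ × ℝ).measurableEmbedding).2 (intOn hF)
    rw [hpre] at this
    exact this
  have h1 : ∫ p in Cyl L, F p =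
      ∫ r in Dsc ×ˢ Ioo 0 L, F (r.1.1, r.1.2, r.2)
        ∂((volume : Measure (ℝ × ℝ)).prod (volume : Measure ℝ)) := by
    rw [← hmp.setIntegral_preimage_emb
      (MeasurableEquiv.prodAssoc : (ℝ × ℝ) × ℝ ≃ᵐ ℝ × ℝ × ℝ).measurableEmbedding F (Cyl L), hpre]
    rfl
  rw [h1, intervalIntegral.integral_of_le hL, integral_Ioc_eq_integral_Ioo,
    ← Measure.prod_restrict, integral_prod_symm]
  rw [IntegrableOn, ← Measure.prod_restrict] at hint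
  exact hint

theorem Adm.contDiffAt {L : ℝ} {w : ℝ × ℝ × ℝ → ℝ} (hw : Adm L w) {p : ℝ × ℝ × ℝ}
    (hp : sq p ≤ 1) : ContDiffAt ℝ ∞ w p := hw.smooth p.1 p.2.1 p.2.2 hp

theorem Adm.continuousAt {L : ℝ} {w : ℝ × ℝ × ℝ → ℝ} (hw : Adm L w) {p : ℝ × ℝ × ℝ}
    (hp : sq p ≤ 1) : ContinuousAt w p := (hw.contDiffAt hp).continuousAt

theorem Adm.continuousAt_fderiv {L : ℝ} {w : ℝ × ℝ × ℝ → ℝ} (hw : Adm L w) {p : ℝ × ℝ × ℝ}
    (hp : sq p ≤ 1) (v : ℝ × ℝ × ℝ) : ContinuousAt (fun p => fderiv ℝ w p v) p := by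
  have h := (hw.contDiffAt hp).fderiv_right (m := 0) (by norm_num)
  exact (h.continuousAt).clm_apply continuousAt_const

theorem Adm.continuousOn {L : ℝ} {w : ℝ × ℝ × ℝ → ℝ} (hw : Adm L w) : ContinuousOn w (cCyl L) :=
  fun _ hp => (hw.continuousAt hp.1).continuousWithinAt

theorem Adm.continuousOn_D1 {L : ℝ} {w : ℝ × ℝ × ℝ → ℝ} (hw : Adm L w) :
    ContinuousOn (D1 w) (cCyl L) :=
  fun _ hp => (hw.continuousAt_fderiv hp.1 _).continuousWithinAt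

theorem Adm.continuousOn_D2 {L : ℝ} {w : ℝ × ℝ × ℝ → ℝ} (hw : Adm L w) :
    ContinuousOn (D2 w) (cCyl L) :=
  fun _ hp => (hw.continuousAt_fderiv hp.1 _).continuousWithinAt

theorem Adm.continuousOn_D3 {L : ℝ} {w : ℝ × ℝ × ℝ → ℝ} (hw : Adm L w) :
    ContinuousOn (D3 w) (cCyl L) :=
  fun _ hp => (hw.continuousAt_fderiv hp.1 _).continuousWithinAt

theorem continuous_sq : Continuous sq := by unfold sq; fun_prop

theorem sq_nonneg' (p : ℝ × ℝ × ℝ) : 0 ≤ sq p := by unfold sq; positivity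

theorem tau_bounds : (0.171572 : ℝ) < tau ∧ tau < 0.171573 := by
  unfold tau
  have h1 : (1.4142135 : ℝ) < √2 := by
    rw [Real.lt_sqrt (by norm_num)]; norm_num
  have h2 : √2 < (1.414214 : ℝ) := by
    rw [Real.sqrt_lt' (by norm_num)]; norm_num
  constructor <;> linarith

theorem Ah_pos (p : ℝ × ℝ × ℝ) : 0 < Ah p := by
  unfold Ah; have := sq_nonneg' p; positivity

theorem one_sub_pos {p : ℝ × ℝ × ℝ} (hp : sq p ≤ 1) : 0 < 1 - tau * sq p := by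
  have := tau_bounds; have := sq_nonneg' p; nlinarith

theorem Ay_pos {p : ℝ × ℝ × ℝ} (hp : sq p ≤ 1) : 0 < Ay p := by
  unfold Ay; have := one_sub_pos hp; have := tau_bounds.1; positivity

theorem continuous_Ah : Continuous Ah := by
  unfold Ah
  apply Continuous.div continuous_const
  · have := continuous_sq; fun_prop
  · intro p; have := sq_nonneg' p; positivity

theorem continuousOn_Ay (L : ℝ) : ContinuousOn Ay (cCyl L) := by
  unfold Ay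
  apply ContinuousOn.div continuousOn_const
  · have := continuous_sq; fun_prop
  · intro p hp; have := one_sub_pos hp.1; positivity

theorem continuous_Gh : Continuous Gh := by
  unfold Gh; have := continuous_sq; fun_prop

theorem continuous_Gy : Continuous Gy := by
  unfold Gy; have := continuous_sq; fun_prop

theorem Gh_pos {p : ℝ × ℝ × ℝ} (hp : sq p ≤ 1) : 0 < Gh p := by
  unfold Gh; have := sq_nonneg' p; nlinarith

theorem Gy_pos {p : ℝ × ℝ × ℝ} (hp : sq p ≤ 1) : 0 < Gy p := by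
  unfold Gy; have := sq_nonneg' p; nlinarith

end Pool.Agent.TH600.YT
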