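import Pool.Agent.TH600.YT.Defs

/-!
# Canonical (Cartesian) form of the Yamabe quotient of a solid torus of revolution
-/

set_option autoImplicit false

open MeasureTheory Real Set
open scoped ContDiff

namespace Pool.Agent.TH600.YT

/-- The open solid torus of revolution in `ℝ³` with core radius `R` and tube radius `1`:
points `(X, Y, Z)` with `(√(X² + Y²) - R)² + Z² < 1`. -/
def ST (R : ℝ) : Set (ℝ × ℝ × ℝ) := {p | (√(p.1 ^ 2 + p.2.1 ^ 2) - R) ^ 2 + p.2.2 ^ 2 < 1}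

/-- The closed solid torus of revolution. -/
def cST (R : ℝ) : Set (ℝ × ℝ × ℝ) := {p | (√(p.1 ^ 2 + p.2.1 ^ 2) - R) ^ 2 + p.2.2 ^ 2 ≤ 1}

/-- The point of `ℝ³` with cylindrical coordinates: distance `R + p.1` to the axis, height
`p.2.1`, angle `p.2.2`. -/
noncomputable def cylPt (R : ℝ) (p : ℝ × ℝ × ℝ) : ℝ × ℝ × ℝ :=
  ((R + p.1) * cos p.2.2, (R + p.1) * sin p.2.2, p.2.1)

/-- Smooth positive functions on the closed solid torus (smooth in a neighbourhood of every point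
of the closed solid torus, i.e. smooth up to the boundary). -/
structure TestFn (R : ℝ) (U : ℝ × ℝ × ℝ → ℝ) : Prop where
  smooth : ∀ p ∈ cST R, ContDiffAt ℝ ∞ U p
  pos : ∀ p ∈ cST R, 0 < U p

/-- `∫_Ω 8 |∇U|² dV + 2 ∫_{∂Ω} H U² dA` for the solid torus `Ω = ST R`. The interior integral is
with respect to Lebesgue measure on `ℝ³`. The boundary torus is parametrized by
`(φ, β) ↦ ((R + cos φ) cos β, (R + cos φ) sin β, sin φ)`, its area element is
`(R + cos φ) dφ dβ` and its mean curvature (sum of the principal curvatures with respect to the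
outward normal) is `1 + cos φ / (R + cos φ)`. -/
noncomputable def yamabeEnergy (R : ℝ) (U : ℝ × ℝ × ℝ → ℝ) : ℝ :=
  (∫ p in ST R, 8 * ((D1 U p) ^ 2 + (D2 U p) ^ 2 + (D3 U p) ^ 2)) +
    2 * ∫ β in (0 : ℝ)..(2 * π), ∫ φ in (0 : ℝ)..(2 * π),
      (1 + cos φ / (R + cos φ)) *
        U ((R + cos φ) * cos β, (R + cos φ) * sin β, sin φ) ^ 2 * (R + cos φ)

/-- `∫_Ω U⁶ dV` for the solid torus `Ω = ST R`. -/
noncomputable def yamabeVol (R : ℝ) (U : ℝ × ℝ × ℝ → ℝ) : ℝ := ∫ p in ST R, U p ^ 6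

/-- The Yamabe quotient `Q(Ω)` of the solid torus `Ω = ST R`. -/
noncomputable def yamabeQ (R : ℝ) : EReal :=
  ⨅ U : {U : ℝ × ℝ × ℝ → ℝ // TestFn R U},
    ((yamabeEnergy R U.1 / (yamabeVol R U.1) ^ (1 / 3 : ℝ) : ℝ) : EReal)

/-- Stereographic projection of `S³ ⊂ ℝ⁴` from the pole `(0, 0, 0, 1)`. -/
noncomputable def stereo (x₁ x₂ x₃ x₄ : ℝ) : ℝ × ℝ × ℝ :=
  (x₁ / (1 - x₄), x₂ / (1 - x₄), x₃ / (1 - x₄))

/-- The stereographic image of the Clifford torus `{x₁² + x₂² = x₃² + x₄² = 1/2} ⊂ S³` is the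
boundary of the solid torus of revolution with core radius `√2` and tube radius `1`. -/
theorem clifford_image (p : ℝ × ℝ × ℝ) :
    (∃ x₁ x₂ x₃ x₄ : ℝ, x₁ ^ 2 + x₂ ^ 2 = 1 / 2 ∧ x₃ ^ 2 + x₄ ^ 2 = 1 / 2 ∧
      stereo x₁ x₂ x₃ x₄ = p) ↔
    (√(p.1 ^ 2 + p.2.1 ^ 2) - √2) ^ 2 + p.2.2 ^ 2 = 1 := by
  obtain ⟨X, Y, Z⟩ := p
  have h2 : √2 ^ 2 = (2 : ℝ) := Real.sq_sqrt (by norm_num)
  have hs2 : 0 < √2 := by positivity
  simp only [stereo, Prod.mk.injEq]
  constructor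
  · rintro ⟨x₁, x₂, x₃, x₄, h12, h34, h1, h3, h4⟩
    have hx4 : x₄ ^ 2 ≤ 1 / 2 := by nlinarith [sq_nonneg x₃]
    have hx4' : x₄ < 1 := by nlinarith
    have hd : 0 < 1 - x₄ := by linarith
    have hρ : √(X ^ 2 + Y ^ 2) = 1 / (√2 * (1 - x₄)) := by
      rw [Real.sqrt_eq_iff_mul_self_eq (by positivity) (by positivity)]
      rw [← h1, ← h3]
      field_simp
      rw [h2]
      linarith
    rw [hρ, ← h4]
    field_simp
    rw [h2]
    have e : √2 ^ 4 = 4 := by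
      calc √2 ^ 4 = (√2 ^ 2) ^ 2 := by ring
        _ = 4 := by rw [h2]; norm_num
    nlinarith [h12, h34, h2, e]
  · intro h
    set ρ := √(X ^ 2 + Y ^ 2) with hρ
    have hρ2 : ρ ^ 2 = X ^ 2 + Y ^ 2 := Real.sq_sqrt (by positivity)
    have hkey : 2 * √2 * ρ = 1 + (X ^ 2 + Y ^ 2 + Z ^ 2) := by nlinarith
    set N := X ^ 2 + Y ^ 2 + Z ^ 2 with hN
    have hNp : 0 < 1 + N := by positivity
    have hkey2 : 8 * (X ^ 2 + Y ^ 2) = (1 + N) ^ 2 := by
      rw [← hkey, ← hρ2]; ring_nf; rw [h2]; ring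
    refine ⟨2 * X / (1 + N), 2 * Y / (1 + N), 2 * Z / (1 + N), (N - 1) / (1 + N), ?_, ?_, ?_, ?_, ?_⟩
    · field_simp
      nlinarith
    · field_simp
      nlinarith
    · have : 1 - (N - 1) / (1 + N) = 2 / (1 + N) := by field_simp; ring
      rw [this]; field_simp
    · have : 1 - (N - 1) / (1 + N) = 2 / (1 + N) := by field_simp; ring
      rw [this]; field_simp
    · have : 1 - (N - 1) / (1 + N) = 2 / (1 + N) := by field_simp; ring
      rw [this]; field_simp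

end Pool.Agent.TH600.YT
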