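import Mathlib

/-!
# Definitions for the Yamabe quotient of solid tori of revolution

Points of `ℝ × ℝ × ℝ` are written `(x, y, z)`: `(x, y)` is a point of the unit disc (the cross
section of the solid torus), `z` is the coordinate along the core (an angle, or a length).
-/

set_option autoImplicit false

open MeasureTheory Real Set
open scoped ContDiff

namespace Pool.Agent.TH600.YT

/-- Partial derivative in the first variable. -/
noncomputable def D1 (w : ℝ × ℝ × ℝ → ℝ) (p : ℝ × ℝ × ℝ) : ℝ := fderiv ℝ w p (1, 0, 0)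

/-- Partial derivative in the second variable. -/
noncomputable def D2 (w : ℝ × ℝ × ℝ → ℝ) (p : ℝ × ℝ × ℝ) : ℝ := fderiv ℝ w p (0, 1, 0)

/-- Partial derivative in the third variable. -/
noncomputable def D3 (w : ℝ × ℝ × ℝ → ℝ) (p : ℝ × ℝ × ℝ) : ℝ := fderiv ℝ w p (0, 0, 1)

/-- The open solid cylinder `{x² + y² < 1, 0 < z < L}`. -/
def Cyl (L : ℝ) : Set (ℝ × ℝ × ℝ) := {p | p.1 ^ 2 + p.2.1 ^ 2 < 1 ∧ 0 < p.2.2 ∧ p.2.2 < L}

/-- Test functions: smooth at every point of the closed cylinder `{x² + y² ≤ 1} × ℝ`,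
`L`-periodic in the third variable and positive on the closed cylinder. -/
structure Adm (L : ℝ) (w : ℝ × ℝ × ℝ → ℝ) : Prop where
  smooth : ∀ x y z : ℝ, x ^ 2 + y ^ 2 ≤ 1 → ContDiffAt ℝ ∞ w (x, y, z)
  periodic : ∀ x y z : ℝ, w (x, y, z + L) = w (x, y, z)
  pos : ∀ x y z : ℝ, x ^ 2 + y ^ 2 ≤ 1 → 0 < w (x, y, z)

/-- The energy `∫ 8|∇u|² dV + 2 ∫ H u² dA` of a function on the solid torus of revolution with
core radius `R` and tube radius `1`, in the cylindrical coordinates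
`(x, y, β) ↦ ((R + x) cos β, (R + x) sin β, y)`: the volume element is `(R + x) dx dy dβ`,
the squared gradient is `u_x² + u_y² + (u_β / (R + x))²`, the boundary is parametrized by
`x = cos φ, y = sin φ`, its area element is `(R + cos φ) dφ dβ` and its mean curvature (sum of the
principal curvatures) is `1 + cos φ / (R + cos φ)`. -/
noncomputable def torusEnergy (R : ℝ) (u : ℝ × ℝ × ℝ → ℝ) : ℝ :=
  (∫ p in Cyl (2 * π), 8 * ((D1 u p) ^ 2 + (D2 u p) ^ 2 + (D3 u p / (R + p.1)) ^ 2) * (R + p.1)) +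
    2 * ∫ β in (0 : ℝ)..(2 * π), ∫ φ in (0 : ℝ)..(2 * π),
      (1 + cos φ / (R + cos φ)) * u (cos φ, sin φ, β) ^ 2 * (R + cos φ)

/-- The integral `∫ u⁶ dV` over the solid torus of revolution with core radius `R` and tube
radius `1`, in the same coordinates. -/
noncomputable def torusVol6 (R : ℝ) (u : ℝ × ℝ × ℝ → ℝ) : ℝ :=
  ∫ p in Cyl (2 * π), u p ^ 6 * (R + p.1)

/-- The Yamabe quotient of the solid torus of revolution with core radius `R` and tube
radius `1`: the infimum of `E(u) / (∫ u⁶)^{1/3}` over smooth positive functions. -/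
noncomputable def torusQ (R : ℝ) : EReal :=
  ⨅ u : {u : ℝ × ℝ × ℝ → ℝ // Adm (2 * π) u},
    ((torusEnergy R u.1 / (torusVol6 R u.1) ^ (1 / 3 : ℝ) : ℝ) : EReal)

/-! ### Auxiliary functionals on cylinders -/

/-- The boundary integral `∫₀ᴸ ∫₀^{2π} w(cos φ, sin φ, z)² dφ dz`. -/
noncomputable def bdry (L : ℝ) (w : ℝ × ℝ × ℝ → ℝ) : ℝ :=
  ∫ z in (0 : ℝ)..L, ∫ φ in (0 : ℝ)..(2 * π), w (cos φ, sin φ, z) ^ 2

/-- Energy of the flat cylinder. -/
noncomputable def E0 (L : ℝ) (w : ℝ × ℝ × ℝ → ℝ) : ℝ :=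
  (∫ p in Cyl L, 8 * ((D1 w p) ^ 2 + (D2 w p) ^ 2 + (D3 w p) ^ 2)) + 2 * bdry L w

/-- `x² + y²`. -/
def sq (p : ℝ × ℝ × ℝ) : ℝ := p.1 ^ 2 + p.2.1 ^ 2

/-- Area density of the round hemisphere in the unit disc (stereographic projection). -/
noncomputable def Ah (p : ℝ × ℝ × ℝ) : ℝ := 4 / (1 + sq p) ^ 2

/-- `(√2 - 1)²`. -/
noncomputable def tau : ℝ := 3 - 2 * √2

/-- Area density, on the unit disc, of the hyperbolic disc of radius `arcosh √2`. -/
noncomputable def Ay (p : ℝ × ℝ × ℝ) : ℝ := 4 * tau / (1 - tau * sq p) ^ 2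

/-- Energy of `hemisphere × ℝ/Lℤ`; `c` is the inverse square of the scale in the third variable. -/
noncomputable def Eh (c L : ℝ) (w : ℝ × ℝ × ℝ → ℝ) : ℝ :=
  ∫ p in Cyl L, (8 * ((D1 w p) ^ 2 + (D2 w p) ^ 2) +
    Ah p * (8 * c * (D3 w p) ^ 2 + 2 * (w p) ^ 2))

/-- Energy of `hyperbolic disc × ℝ/Lℤ`; `c` is the inverse square of the scale in the third
variable. -/
noncomputable def Ey (c L : ℝ) (w : ℝ × ℝ × ℝ → ℝ) : ℝ :=
  (∫ p in Cyl L, (8 * ((D1 w p) ^ 2 + (D2 w p) ^ 2) +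
    Ay p * (8 * c * (D3 w p) ^ 2 - 2 * (w p) ^ 2))) + 2 * √2 * bdry L w

/-- The multiplier of the hemisphere part. -/
noncomputable def Gh (p : ℝ × ℝ × ℝ) : ℝ := (170 + 112 * sq p - 13 * sq p ^ 2) / 1000

/-- The multiplier of the hyperbolic part. -/
noncomputable def Gy (p : ℝ × ℝ × ℝ) : ℝ := (824 - 96 * sq p) / 1000

/-- Inverse square of the scale `291/200`. -/
noncomputable def ch : ℝ := (200 / 291) ^ 2

/-- Inverse square of the scale `183/200`. -/
noncomputable def cy : ℝ := (200 / 183) ^ 2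

end Pool.Agent.TH600.YT
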