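import Pool.Agent.TH600.YT.Scale

set_option autoImplicit false

open MeasureTheory Real Set
open scoped ContDiff

namespace Pool.Agent.TH600.YT

theorem cont_bdry {L : ℝ} {w : ℝ × ℝ × ℝ → ℝ} (hw : Adm L w) :
    Continuous (fun r : ℝ × ℝ => w (cos r.2, sin r.2, r.1)) := by
  rw [continuous_iff_continuousAt]
  intro r
  have h1 : ContinuousAt w (cos r.2, sin r.2, r.1) := by
    apply hw.continuousAt
    simp [sq]
  have h2 : ContinuousAt (fun r : ℝ × ℝ => (cos r.2, sin r.2, r.1)) r := by fun_prop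
  exact ContinuousAt.comp (f := fun r : ℝ × ℝ => (cos r.2, sin r.2, r.1)) h1 h2

theorem bdry_mono {L : ℝ} (hL : 0 ≤ L) {f g : ℝ → ℝ → ℝ}
    (hf : Continuous (Function.uncurry f)) (hg : Continuous (Function.uncurry g))
    (h : ∀ z φ, f z φ ≤ g z φ) :
    ∫ z in (0 : ℝ)..L, ∫ φ in (0 : ℝ)..(2 * π), f z φ ≤
      ∫ z in (0 : ℝ)..L, ∫ φ in (0 : ℝ)..(2 * π), g z φ := by
  have cf : Continuous (fun z => ∫ φ in (0 : ℝ)..(2 * π), f z φ) :=
    intervalIntegral.continuous_parametric_intervalIntegral_of_continuous' hf 0 (2 * π)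
  have cg : Continuous (fun z => ∫ φ in (0 : ℝ)..(2 * π), g z φ) :=
    intervalIntegral.continuous_parametric_intervalIntegral_of_continuous' hg 0 (2 * π)
  apply intervalIntegral.integral_mono_on hL (cf.intervalIntegrable _ _) (cg.intervalIntegrable _ _)
  intro z _
  apply intervalIntegral.integral_mono_on (by positivity)
  · exact (hf.comp (Continuous.prodMk_right z)).intervalIntegrable _ _
  · exact (hg.comp (Continuous.prodMk_right z)).intervalIntegrable _ _
  · intro φ _; exact h z φ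

theorem bdry_nonneg {L : ℝ} (hL : 0 ≤ L) (w : ℝ × ℝ × ℝ → ℝ) : 0 ≤ bdry L w := by
  unfold bdry
  apply intervalIntegral.integral_nonneg hL
  intro z _
  apply intervalIntegral.integral_nonneg (by positivity)
  intro φ _
  positivity

theorem torus_flat (R : ℝ) (hR : 2 < R) (u : ℝ × ℝ × ℝ → ℝ) (hu : Adm (2 * π) u) :
    Adm (2 * π * R) (fun p => u (p.1, p.2.1, p.2.2 / R)) ∧
    (1 - 2 / R) * E0 (2 * π * R) (fun p => u (p.1, p.2.1, p.2.2 / R)) ≤ torusEnergy R u ∧
    torusVol6 R u ≤ (1 + 1 / R) * ∫ p in Cyl (2 * π * R), u (p.1, p.2.1, p.2.2 / R) ^ 6 := by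
  have hR0 : 0 < R := by linarith
  have hpi := pi_pos
  have c1 := hu.continuousOn
  have c2 := hu.continuousOn_D1
  have c3 := hu.continuousOn_D2
  have c4 := hu.continuousOn_D3
  have hcomm : 2 * π * R = R * (2 * π) := by ring
  rw [hcomm]
  have hne : ∀ p ∈ cCyl (2 * π), R + p.1 ≠ 0 := by
    intro p hp
    have h1 := hp.1
    have : -1 ≤ p.1 := by nlinarith [sq_nonneg p.2.1]
    have : 0 < R + p.1 := by linarith
    exact this.ne'
  have c6 : ContinuousOn (fun p : ℝ × ℝ × ℝ => D3 u p / (R + p.1)) (cCyl (2 * π)) :=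
    c4.div (by fun_prop) hne
  refine ⟨adm_sc hR0 hu, ?_, ?_⟩
  · -- energy
    have hE : E0 (R * (2 * π)) (fun p => u (p.1, p.2.1, p.2.2 / R)) =
        R * (∫ p in Cyl (2 * π), 8 * (D1 u p ^ 2 + D2 u p ^ 2 + (D3 u p / R) ^ 2)) +
          2 * (R * bdry (2 * π) u) := by
      unfold E0
      rw [bdry_scale hR0 u]
      congr 1
      rw [← int_scale (by positivity) hR0
        (F := fun p => 8 * (D1 u p ^ 2 + D2 u p ^ 2 + (D3 u p / R) ^ 2)) (by fun_prop)]
      apply setIntegral_congr_fun (measurableSet_Cyl _)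
      intro p hp
      have hd : DifferentiableAt ℝ u (p.1, p.2.1, p.2.2 / R) :=
        (hu.smooth p.1 p.2.1 (p.2.2 / R) hp.1.le).differentiableAt (by simp)
      obtain ⟨e1, e2, e3⟩ := D_sc hd
      simp only [e1, e2, e3]
    rw [hE]
    have hR2 : 1 - 2 / R = (R - 2) / R := by field_simp
    have hint : (1 - 2 / R) * (R * (∫ p in Cyl (2 * π),
        8 * (D1 u p ^ 2 + D2 u p ^ 2 + (D3 u p / R) ^ 2))) ≤
        ∫ p in Cyl (2 * π), 8 * ((D1 u p) ^ 2 + (D2 u p) ^ 2 + (D3 u p / (R + p.1)) ^ 2) *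
          (R + p.1) := by
      rw [← mul_assoc, ← integral_const_mul]
      apply setIntegral_mono_on (intOn (by fun_prop)) (intOn (by fun_prop)) (measurableSet_Cyl _)
      intro p hp
      have h1 := hp.1
      have hx1 : -1 < p.1 := by nlinarith [sq_nonneg p.2.1]
      have hx2 : p.1 < 1 := by nlinarith [sq_nonneg p.2.1]
      have hRx : 0 < R + p.1 := by linarith
      have e1 : (1 - 2 / R) * R * (8 * (D1 u p ^ 2 + D2 u p ^ 2 + (D3 u p / R) ^ 2)) =
          8 * ((R - 2) * (D1 u p ^ 2 + D2 u p ^ 2) + (R - 2) / R ^ 2 * D3 u p ^ 2) := by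
        rw [hR2]; field_simp
      have e2 : 8 * ((D1 u p) ^ 2 + (D2 u p) ^ 2 + (D3 u p / (R + p.1)) ^ 2) * (R + p.1) =
          8 * ((R + p.1) * (D1 u p ^ 2 + D2 u p ^ 2) + 1 / (R + p.1) * D3 u p ^ 2) := by
        field_simp
      rw [e1, e2]
      have i1 : (R - 2) * (D1 u p ^ 2 + D2 u p ^ 2) ≤ (R + p.1) * (D1 u p ^ 2 + D2 u p ^ 2) :=
        mul_le_mul_of_nonneg_right (by linarith) (by positivity)
      have i2 : (R - 2) / R ^ 2 ≤ 1 / (R + p.1) := by
        rw [div_le_div_iff₀ (by positivity) hRx]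
        nlinarith
      have i3 : (R - 2) / R ^ 2 * D3 u p ^ 2 ≤ 1 / (R + p.1) * D3 u p ^ 2 :=
        mul_le_mul_of_nonneg_right i2 (by positivity)
      linarith
    have hb : (R - 2) * bdry (2 * π) u ≤ ∫ β in (0 : ℝ)..(2 * π), ∫ φ in (0 : ℝ)..(2 * π),
        (1 + cos φ / (R + cos φ)) * u (cos φ, sin φ, β) ^ 2 * (R + cos φ) := by
      have hcb := cont_bdry hu
      have hpos : ∀ φ : ℝ, 0 < R + cos φ := fun φ => by have := neg_one_le_cos φ; linarith
      have hcd : Continuous (fun r : ℝ × ℝ => (1 + cos r.2 / (R + cos r.2))) :=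
        continuous_const.add ((by fun_prop : Continuous fun r : ℝ × ℝ => cos r.2).div
          (by fun_prop) (fun r => (hpos r.2).ne'))
      have e0 : (R - 2) * bdry (2 * π) u = ∫ z in (0 : ℝ)..(2 * π), ∫ φ in (0 : ℝ)..(2 * π),
          (R - 2) * u (cos φ, sin φ, z) ^ 2 := by
        unfold bdry
        simp only [intervalIntegral.integral_const_mul]
      rw [e0]
      apply bdry_mono (by positivity)
      · exact continuous_const.mul (hcb.pow 2)
      · exact (hcd.mul (hcb.pow 2)).mul (by fun_prop)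
      · intro z φ
        have h3 := hpos φ
        have h4 := neg_one_le_cos φ
        have e : (1 + cos φ / (R + cos φ)) * u (cos φ, sin φ, z) ^ 2 * (R + cos φ) =
            (R + 2 * cos φ) * u (cos φ, sin φ, z) ^ 2 := by
          field_simp; ring
        rw [e]
        apply mul_le_mul_of_nonneg_right (by linarith) (by positivity)
    unfold torusEnergy
    have e4 : (1 - 2 / R) * (R * (∫ p in Cyl (2 * π),
        8 * (D1 u p ^ 2 + D2 u p ^ 2 + (D3 u p / R) ^ 2)) + 2 * (R * bdry (2 * π) u)) =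
        (1 - 2 / R) * (R * (∫ p in Cyl (2 * π),
        8 * (D1 u p ^ 2 + D2 u p ^ 2 + (D3 u p / R) ^ 2))) + 2 * ((R - 2) * bdry (2 * π) u) := by
      rw [hR2]; field_simp
    rw [e4]
    linarith
  · -- volume
    have hN : ∫ p in Cyl (R * (2 * π)), u (p.1, p.2.1, p.2.2 / R) ^ 6 =
        R * ∫ p in Cyl (2 * π), u p ^ 6 :=
      int_scale (by positivity) hR0 (F := fun p => u p ^ 6) (by fun_prop)
    rw [hN]
    have e : (1 + 1 / R) * (R * ∫ p in Cyl (2 * π), u p ^ 6) =
        ∫ p in Cyl (2 * π), (R + 1) * u p ^ 6 := by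
      rw [integral_const_mul]; field_simp
    rw [e]
    unfold torusVol6
    apply setIntegral_mono_on (intOn (by fun_prop)) (intOn (by fun_prop)) (measurableSet_Cyl _)
    intro p hp
    have h1 := hp.1
    have hx2 : p.1 < 1 := by nlinarith [sq_nonneg p.2.1]
    have h3 : 0 ≤ u p ^ 6 := by positivity
    nlinarith

end Pool.Agent.TH600.YT
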