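import Pool.Agent.TH600.YT.Canon
import Pool.Agent.TH600.YT.Flat

set_option autoImplicit false

open MeasureTheory Real Set
open scoped ContDiff

namespace Pool.Agent.TH600.YT

theorem torusEnergy_congr {R : ℝ} {u v : ℝ × ℝ × ℝ → ℝ} (h : ∀ p, sq p ≤ 1 → u p = v p) :
    torusEnergy R u = torusEnergy R v ∧ torusVol6 R u = torusVol6 R v := by
  have hev : ∀ p ∈ Cyl (2 * π), u =ᶠ[nhds p] v := by
    intro p hp
    have hopen : IsOpen (Cyl (2 * π)) := isOpen_Cyl _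
    filter_upwards [hopen.mem_nhds hp] with q hq
    exact h q hq.1.le
  constructor
  · unfold torusEnergy
    congr 1
    · apply setIntegral_congr_fun (measurableSet_Cyl _)
      intro p hp
      simp only [D1, D2, D3, (hev p hp).fderiv_eq]
    · congr 1
      apply intervalIntegral.integral_congr
      intro β _
      apply intervalIntegral.integral_congr
      intro φ _
      simp only
      rw [h (cos φ, sin φ, β) (by simp [sq])]
  · unfold torusVol6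
    apply setIntegral_congr_fun (measurableSet_Cyl _)
    intro p hp
    simp only
    rw [h p hp.1.le]

theorem torusQ_le_yamabeQ
    (canon_pull : ∀ (R : ℝ), 1 < R → ∀ (U : ℝ × ℝ × ℝ → ℝ), TestFn R U →
      Adm (2 * π) (fun p => U (cylPt R p)) ∧
      torusEnergy R (fun p => U (cylPt R p)) = yamabeEnergy R U ∧
      torusVol6 R (fun p => U (cylPt R p)) = yamabeVol R U)
    (R : ℝ) (hR : 1 < R) : torusQ R ≤ yamabeQ R := by
  unfold yamabeQ
  apply le_iInf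
  rintro ⟨U, hU⟩
  obtain ⟨h1, h2, h3⟩ := canon_pull R hR U hU
  simp only
  rw [← h2, ← h3]
  exact iInf_le (fun u : {u : ℝ × ℝ × ℝ → ℝ // Adm (2 * π) u} =>
    ((torusEnergy R u.1 / (torusVol6 R u.1) ^ (1 / 3 : ℝ) : ℝ) : EReal)) ⟨_, h1⟩

theorem yamabeQ_le_torusQ
    (canon_pull : ∀ (R : ℝ), 1 < R → ∀ (U : ℝ × ℝ × ℝ → ℝ), TestFn R U →
      Adm (2 * π) (fun p => U (cylPt R p)) ∧
      torusEnergy R (fun p => U (cylPt R p)) = yamabeEnergy R U ∧
      torusVol6 R (fun p => U (cylPt R p)) = yamabeVol R U)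
    (canon_push : ∀ (R : ℝ), 1 < R → ∀ (u : ℝ × ℝ × ℝ → ℝ), Adm (2 * π) u →
      ∃ U : ℝ × ℝ × ℝ → ℝ, TestFn R U ∧ ∀ p : ℝ × ℝ × ℝ, sq p ≤ 1 → U (cylPt R p) = u p)
    (R : ℝ) (hR : 1 < R) : yamabeQ R ≤ torusQ R := by
  unfold torusQ
  apply le_iInf
  rintro ⟨u, hu⟩
  obtain ⟨U, hU, hUu⟩ := canon_push R hR u hu
  obtain ⟨h1, h2, h3⟩ := canon_pull R hR U hU
  obtain ⟨h4, h5⟩ := torusEnergy_congr (R := R) hUu
  simp only
  rw [← h4, ← h5, h2, h3]
  exact iInf_le (fun U : {U : ℝ × ℝ × ℝ → ℝ // TestFn R U} =>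
    ((yamabeEnergy R U.1 / (yamabeVol R U.1) ^ (1 / 3 : ℝ) : ℝ) : EReal)) ⟨U, hU⟩

end Pool.Agent.TH600.YT
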