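import Pool.Agent.TH600.YT.Basic

set_option autoImplicit false

open MeasureTheory Real Set
open scoped ContDiff

namespace Pool.Agent.TH600.YT

theorem weights (p : ℝ × ℝ × ℝ) (hp : sq p ≤ 1) :
    (209 / 1000 : ℝ) ^ 3 ≤ ch * Ah p * Gh p ^ 3 ∧ (7705 / 10000 : ℝ) ^ 3 ≤ cy * Ay p * Gy p ^ 3 := by
  have h0 := sq_nonneg' p
  obtain ⟨ht1, ht2⟩ := tau_bounds
  have h1 := one_sub_pos hp
  set t := sq p with ht
  constructor
  · unfold Ah ch Gh
    rw [← ht]
    have e : (200 / 291 : ℝ) ^ 2 * (4 / (1 + t) ^ 2) * ((170 + 112 * t - 13 * t ^ 2) / 1000) ^ 3 =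
        ((200 / 291 : ℝ) ^ 2 * 4 * ((170 + 112 * t - 13 * t ^ 2) / 1000) ^ 3) / (1 + t) ^ 2 := by
      ring
    rw [e, le_div_iff₀ (by positivity)]
    have h1t : 0 ≤ 1 - t := by linarith
    have key : (200 / 291 : ℝ) ^ 2 * 4 * ((170 + 112 * t - 13 * t ^ 2) / 1000) ^ 3 -
        (209 / 1000 : ℝ) ^ 3 * (1 + t) ^ 2 =
      (12999290951/84681000000000)*t^0*(1-t)^6 + (3562430317/3528375000000)*t^1*(1-t)^5 + (50445994121/14113500000000)*t^2*(1-t)^4 + (150718920461/21170250000000)*t^3*(1-t)^3 + (196027002997/28227000000000)*t^4*(1-t)^2 + (3963806317/1411350000000)*t^5*(1-t)^1 + (5523650951/21170250000000)*t^6*(1-t)^0 := by ring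
    have : 0 ≤ (200 / 291 : ℝ) ^ 2 * 4 * ((170 + 112 * t - 13 * t ^ 2) / 1000) ^ 3 -
        (209 / 1000 : ℝ) ^ 3 * (1 + t) ^ 2 := by
      rw [key]; positivity
    linarith
  · unfold Ay cy Gy
    rw [← ht]
    have e : (200 / 183 : ℝ) ^ 2 * (4 * tau / (1 - tau * t) ^ 2) * ((824 - 96 * t) / 1000) ^ 3 =
        ((200 / 183 : ℝ) ^ 2 * (4 * tau) * ((824 - 96 * t) / 1000) ^ 3) / (1 - tau * t) ^ 2 := by
      ring
    rw [e, le_div_iff₀ (by positivity)]
    have h1t : 0 ≤ 1 - t := by linarith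
    have key : (200 / 183 : ℝ) ^ 2 * (4 * (171572 / 1000000)) * ((824 - 96 * t) / 1000) ^ 3 -
        (7705 / 10000 : ℝ) ^ 3 * (1 - 171572 / 1000000 * t) ^ 2 =
      (7967265885371/6697800000000000)*t^0*(1-t)^3 + (2665756986961339/11163000000000000000)*t^1*(1-t)^2 + (11825135335345075241273/5581500000000000000000000)*t^2*(1-t)^1 + (39251261239660717223819/16744500000000000000000000)*t^3*(1-t)^0 := by ring
    have k2 : 0 ≤ (200 / 183 : ℝ) ^ 2 * (4 * (171572 / 1000000)) * ((824 - 96 * t) / 1000) ^ 3 -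
        (7705 / 10000 : ℝ) ^ 3 * (1 - 171572 / 1000000 * t) ^ 2 := by
      rw [key]; positivity
    have k3 : (1 - tau * t) ^ 2 ≤ (1 - 171572 / 1000000 * t) ^ 2 := by
      apply pow_le_pow_left₀ h1.le
      nlinarith
    have k4 : 0 ≤ ((824 - 96 * t) / 1000) ^ 3 := by
      have : 0 ≤ (824 - 96 * t) / 1000 := by linarith
      positivity
    have k5 : (200 / 183 : ℝ) ^ 2 * (4 * (171572 / 1000000)) * ((824 - 96 * t) / 1000) ^ 3 ≤
        (200 / 183 : ℝ) ^ 2 * (4 * tau) * ((824 - 96 * t) / 1000) ^ 3 := by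
      apply mul_le_mul_of_nonneg_right _ k4
      nlinarith
    have k6 : (7705 / 10000 : ℝ) ^ 3 * (1 - tau * t) ^ 2 ≤
        (7705 / 10000 : ℝ) ^ 3 * (1 - 171572 / 1000000 * t) ^ 2 :=
      mul_le_mul_of_nonneg_left k3 (by norm_num)
    linarith

theorem int_lower (L : ℝ) (w : ℝ × ℝ × ℝ → ℝ) (hw : Adm L w) :
    (209 / 1000 : ℝ) ^ 3 * (∫ p in Cyl L, w p ^ 6) ≤
      (∫ p in Cyl L, ch * Ah p * (√(Gh p) * w p) ^ 6) ∧
    (7705 / 10000 : ℝ) ^ 3 * (∫ p in Cyl L, w p ^ 6) ≤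
      cy * (∫ p in Cyl L, Ay p * (√(Gy p) * w p) ^ 6) ∧
    (∫ p in Cyl L, (√(Gh p) * w p) ^ 2) ≤ ∫ p in Cyl L, w p ^ 2 := by
  have c1 := hw.continuousOn
  have c2 := continuous_Ah.continuousOn (s := cCyl L)
  have c3 := continuousOn_Ay L
  have c4 := (continuous_Gh.sqrt).continuousOn (s := cCyl L)
  have c5 := (continuous_Gy.sqrt).continuousOn (s := cCyl L)
  have hm := measurableSet_Cyl L
  refine ⟨?_, ?_, ?_⟩
  · rw [← integral_const_mul]
    apply setIntegral_mono_on (intOn (by fun_prop)) (intOn (by fun_prop)) hm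
    intro p hp
    have hs : sq p ≤ 1 := hp.1.le
    have h1 := (weights p hs).1
    have h2 : (√(Gh p) * w p) ^ 6 = Gh p ^ 3 * w p ^ 6 := by
      rw [mul_pow]
      congr 1
      calc √(Gh p) ^ 6 = (√(Gh p) ^ 2) ^ 3 := by ring
        _ = _ := by rw [Real.sq_sqrt (Gh_pos hs).le]
    rw [h2]
    have h3 : 0 ≤ w p ^ 6 := by positivity
    calc (209 / 1000 : ℝ) ^ 3 * w p ^ 6 ≤ (ch * Ah p * Gh p ^ 3) * w p ^ 6 :=
          mul_le_mul_of_nonneg_right h1 h3
      _ = _ := by ring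
  · rw [← integral_const_mul, ← integral_const_mul]
    apply setIntegral_mono_on (intOn (by fun_prop)) (intOn (by fun_prop)) hm
    intro p hp
    have hs : sq p ≤ 1 := hp.1.le
    have h1 := (weights p hs).2
    have h2 : (√(Gy p) * w p) ^ 6 = Gy p ^ 3 * w p ^ 6 := by
      rw [mul_pow]
      congr 1
      calc √(Gy p) ^ 6 = (√(Gy p) ^ 2) ^ 3 := by ring
        _ = _ := by rw [Real.sq_sqrt (Gy_pos hs).le]
    rw [h2]
    have h3 : 0 ≤ w p ^ 6 := by positivity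
    calc (7705 / 10000 : ℝ) ^ 3 * w p ^ 6 ≤ (cy * Ay p * Gy p ^ 3) * w p ^ 6 :=
          mul_le_mul_of_nonneg_right h1 h3
      _ = _ := by ring
  · apply setIntegral_mono_on (intOn (by fun_prop)) (intOn (by fun_prop)) hm
    intro p hp
    have hs : sq p ≤ 1 := hp.1.le
    rw [mul_pow, Real.sq_sqrt (Gh_pos hs).le]
    have h4 : Gh p ≤ 1 := by
      unfold Gh; have := sq_nonneg' p; nlinarith
    have h3 : 0 ≤ w p ^ 2 := by positivity
    nlinarith

theorem vol_pos_aux {L : ℝ} (hL : 0 < L) {F : ℝ × ℝ × ℝ → ℝ} (hF : ContinuousOn F (cCyl L))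
    (hpos : ∀ p ∈ Cyl L, 0 < F p) : 0 < ∫ p in Cyl L, F p := by
  rw [setIntegral_pos_iff_support_of_nonneg_ae]
  · have hsub : Cyl L ⊆ Function.support F ∩ Cyl L := fun p hp => ⟨(hpos p hp).ne', hp⟩
    refine lt_of_lt_of_le ?_ (measure_mono hsub)
    refine (isOpen_Cyl L).measure_pos volume ⟨(0, 0, L / 2), ?_⟩
    simp only [Cyl, Set.mem_ofPred_eq]
    refine ⟨by norm_num, by linarith, by linarith⟩
  · filter_upwards [ae_restrict_mem (measurableSet_Cyl L)] with p hp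
    exact (hpos p hp).le
  · exact intOn hF

theorem vol_pos (L : ℝ) (hL : 0 < L) (w : ℝ × ℝ × ℝ → ℝ) (hw : Adm L w) :
    0 < (∫ p in Cyl L, w p ^ 6) ∧ 0 < (∫ p in Cyl L, Ay p * w p ^ 6) := by
  have c1 := hw.continuousOn
  have c3 := continuousOn_Ay L
  constructor
  · apply vol_pos_aux hL (by fun_prop)
    intro p hp
    have := hw.pos p.1 p.2.1 p.2.2 hp.1.le
    positivity
  · apply vol_pos_aux hL (by fun_prop)
    intro p hp
    have h1 : 0 < w p := hw.pos p.1 p.2.1 p.2.2 hp.1.le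
    have h2 := Ay_pos (p := p) hp.1.le
    positivity

theorem torusVol6_pos (R : ℝ) (hR : 1 < R) (w : ℝ × ℝ × ℝ → ℝ) (hw : Adm (2 * π) w) :
    0 < torusVol6 R w := by
  have c1 := hw.continuousOn
  unfold torusVol6
  apply vol_pos_aux (by positivity)
  · have : ContinuousOn (fun p : ℝ × ℝ × ℝ => R + p.1) (cCyl (2 * π)) := by fun_prop
    fun_prop
  · intro p hp
    have h1 : 0 < w p := hw.pos p.1 p.2.1 p.2.2 hp.1.le
    have h2 : 0 < R + p.1 := by
      have := hp.1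
      nlinarith [sq_nonneg p.2.1]
    positivity

theorem adm_mul (L : ℝ) (w : ℝ × ℝ × ℝ → ℝ) (hw : Adm L w) :
    Adm L (fun p => √(Gh p) * w p) ∧ Adm L (fun p => √(Gy p) * w p) := by
  have hGh : ContDiff ℝ ∞ Gh := by unfold Gh sq; fun_prop
  have hGy : ContDiff ℝ ∞ Gy := by unfold Gy sq; fun_prop
  constructor
  · refine ⟨?_, ?_, ?_⟩
    · intro x y z h
      have hp := Gh_pos (p := (x, y, z)) h
      exact (hGh.contDiffAt.sqrt hp.ne').mul (hw.smooth x y z h)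
    · intro x y z
      simp only [Gh, sq, hw.periodic x y z]
    · intro x y z h
      have hp := Gh_pos (p := (x, y, z)) h
      have h1 := hw.pos x y z h
      positivity
  · refine ⟨?_, ?_, ?_⟩
    · intro x y z h
      have hp := Gy_pos (p := (x, y, z)) h
      exact (hGy.contDiffAt.sqrt hp.ne').mul (hw.smooth x y z h)
    · intro x y z
      simp only [Gy, sq, hw.periodic x y z]
    · intro x y z h
      have hp := Gy_pos (p := (x, y, z)) h
      have h1 := hw.pos x y z h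
      positivity

end Pool.Agent.TH600.YT
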