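import Pool.Agent.TH600.YT.Main
import Pool.Agent.TH600.YT.CanonLe
import Pool.Agent.TH515.J744
import Pool.Agent.TH628.J837

/-!
# The Clifford solid torus is not extremal
-/

set_option autoImplicit false

open MeasureTheory Real Set
open scoped ContDiff

namespace Pool.Agent.TH600.YT

theorem main : ∃ R : ℝ, 1 < R ∧ torusQ (√2) < torusQ R :=
  main_of (clifford_bridge div_disc')

theorem final_of
    (canon_pull : ∀ (R : ℝ), 1 < R → ∀ (U : ℝ × ℝ × ℝ → ℝ), TestFn R U →
      Adm (2 * π) (fun p => U (cylPt R p)) ∧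
      torusEnergy R (fun p => U (cylPt R p)) = yamabeEnergy R U ∧
      torusVol6 R (fun p => U (cylPt R p)) = yamabeVol R U) :
    ∃ R : ℝ, 1 < R ∧ yamabeQ (√2) < yamabeQ R := by
  obtain ⟨R, hR, h⟩ := main
  have h2 : (1 : ℝ) < √2 := by
    rw [Real.lt_sqrt (by norm_num)]; norm_num
  refine ⟨R, hR, ?_⟩
  refine lt_of_le_of_lt (yamabeQ_le_torusQ canon_pull
    (fun R hR u hu => Pool.Agent.TH628.YT837.canon_push R hR u hu) _ h2) ?_
  exact lt_of_lt_of_le h (torusQ_le_yamabeQ canon_pull R hR)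

end Pool.Agent.TH600.YT
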