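import Pool.Agent.TH600.YT.Flat

set_option autoImplicit false

open MeasureTheory Real Set
open scoped ContDiff

namespace Pool.Agent.TH600.YT

/-- the slice of `w` at height `z` -/
def slice (w : ℝ × ℝ × ℝ → ℝ) (z : ℝ) (q : ℝ × ℝ) : ℝ := w (q.1, q.2, z)

theorem hasFDerivAt_slice {w : ℝ × ℝ × ℝ → ℝ} {z : ℝ} {q : ℝ × ℝ}
    (hw : DifferentiableAt ℝ w (q.1, q.2, z)) :
    HasFDerivAt (slice w z) ((fderiv ℝ w (q.1, q.2, z)).comp
      ((ContinuousLinearMap.fst ℝ ℝ ℝ).prod ((ContinuousLinearMap.snd ℝ ℝ ℝ).prod 0))) q := by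
  have h1 : HasFDerivAt (fun q : ℝ × ℝ => (q.1, q.2, z))
      ((ContinuousLinearMap.fst ℝ ℝ ℝ).prod ((ContinuousLinearMap.snd ℝ ℝ ℝ).prod 0)) q :=
    hasFDerivAt_fst.prodMk (hasFDerivAt_snd.prodMk (hasFDerivAt_const z q))
  exact hw.hasFDerivAt.comp q h1

theorem slice_D {w : ℝ × ℝ × ℝ → ℝ} {z : ℝ} {q : ℝ × ℝ}
    (hw : DifferentiableAt ℝ w (q.1, q.2, z)) :
    fderiv ℝ (slice w z) q (1, 0) = D1 w (q.1, q.2, z) ∧
    fderiv ℝ (slice w z) q (0, 1) = D2 w (q.1, q.2, z) := by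
  rw [(hasFDerivAt_slice hw).fderiv]
  constructor <;> simp [D1, D2, ContinuousLinearMap.comp_apply]

theorem contDiffAt_slice {L : ℝ} {w : ℝ × ℝ × ℝ → ℝ} (hw : Adm L w) (z : ℝ) {q : ℝ × ℝ}
    (hq : q.1 ^ 2 + q.2 ^ 2 ≤ 1) : ContDiffAt ℝ ∞ (slice w z) q := by
  have h1 : ContDiffAt ℝ ∞ (fun q : ℝ × ℝ => (q.1, q.2, z)) q := by fun_prop
  exact ContDiffAt.comp (g := w) q (hw.smooth q.1 q.2 z hq) h1

theorem l2_bound
    (div_disc : ∀ (X Y : ℝ × ℝ → ℝ),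
      (∀ p : ℝ × ℝ, p.1 ^ 2 + p.2 ^ 2 ≤ 1 → ContDiffAt ℝ 1 X p) →
      (∀ p : ℝ × ℝ, p.1 ^ 2 + p.2 ^ 2 ≤ 1 → ContDiffAt ℝ 1 Y p) →
      ∫ p in {p : ℝ × ℝ | p.1 ^ 2 + p.2 ^ 2 < 1}, (fderiv ℝ X p (1, 0) + fderiv ℝ Y p (0, 1)) =
        ∫ φ in (0 : ℝ)..(2 * π), (X (cos φ, sin φ) * cos φ + Y (cos φ, sin φ) * sin φ))
    (L : ℝ) (hL : 0 < L) (w : ℝ × ℝ × ℝ → ℝ) (hw : Adm L w) :
    2 * ∫ p in Cyl L, w p ^ 2 ≤ E0 L w := by
  have c1 := hw.continuousOn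
  have c2 := hw.continuousOn_D1
  have c3 := hw.continuousOn_D2
  have c4 := hw.continuousOn_D3
  -- slice inequality
  have key : ∀ z ∈ Icc (0 : ℝ) L, (∫ q in Dsc, (w (q.1, q.2, z) ^ 2 -
      (D1 w (q.1, q.2, z) ^ 2 + D2 w (q.1, q.2, z) ^ 2))) ≤
      ∫ φ in (0 : ℝ)..(2 * π), w (cos φ, sin φ, z) ^ 2 := by
    intro z hz
    have hf1 : ∀ q : ℝ × ℝ, q.1 ^ 2 + q.2 ^ 2 ≤ 1 → ContDiffAt ℝ 1 (slice w z) q :=
      fun q hq => (contDiffAt_slice hw z hq).of_le (by simp)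
    have hdiv := div_disc (fun q => q.1 * slice w z q ^ 2) (fun q => q.2 * slice w z q ^ 2)
      (fun q hq => by have := hf1 q hq; fun_prop) (fun q hq => by have := hf1 q hq; fun_prop)
    have e1 : (∫ φ in (0 : ℝ)..(2 * π), w (cos φ, sin φ, z) ^ 2) =
        ∫ φ in (0 : ℝ)..(2 * π), (cos φ * slice w z (cos φ, sin φ) ^ 2 * cos φ +
          sin φ * slice w z (cos φ, sin φ) ^ 2 * sin φ) := by
      apply intervalIntegral.integral_congr
      intro φ _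
      simp only [slice]
      have := sin_sq_add_cos_sq φ
      linear_combination (-(w (cos φ, sin φ, z) ^ 2)) * this
    rw [e1]
    refine le_trans ?_ hdiv.le
    have hz1 : ∀ q ∈ cDsc, ((q.1, q.2, z) : ℝ × ℝ × ℝ) ∈ cCyl L := fun q hq => ⟨hq, hz.1, hz.2⟩
    have hc : Continuous (fun q : ℝ × ℝ => ((q.1, q.2, z) : ℝ × ℝ × ℝ)) := by fun_prop
    have d1 : ContinuousOn (fun q : ℝ × ℝ => w (q.1, q.2, z)) cDsc := c1.comp hc.continuousOn hz1
    have d2 : ContinuousOn (fun q : ℝ × ℝ => D1 w (q.1, q.2, z)) cDsc :=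
      c2.comp hc.continuousOn hz1
    have d3 : ContinuousOn (fun q : ℝ × ℝ => D2 w (q.1, q.2, z)) cDsc :=
      c3.comp hc.continuousOn hz1
    have hder : ∀ q ∈ Dsc, fderiv ℝ (fun q => q.1 * slice w z q ^ 2) q (1, 0) +
        fderiv ℝ (fun q => q.2 * slice w z q ^ 2) q (0, 1) =
        2 * w (q.1, q.2, z) ^ 2 + 2 * w (q.1, q.2, z) *
          (q.1 * D1 w (q.1, q.2, z) + q.2 * D2 w (q.1, q.2, z)) := by
      intro q hq
      have hq' : q.1 ^ 2 + q.2 ^ 2 ≤ 1 := le_of_lt hq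
      have hd : DifferentiableAt ℝ w (q.1, q.2, z) :=
        (hw.smooth q.1 q.2 z hq').differentiableAt (by simp)
      have hs := (hasFDerivAt_slice hd)
      obtain ⟨s1, s2⟩ := slice_D hd
      rw [hs.fderiv] at s1 s2
      have h2 : HasFDerivAt (fun q : ℝ × ℝ => q.1 * slice w z q ^ 2) _ q :=
        (hasFDerivAt_fst (𝕜 := ℝ) (p := q)).mul (hs.pow 2)
      have h3 : HasFDerivAt (fun q : ℝ × ℝ => q.2 * slice w z q ^ 2) _ q :=
        (hasFDerivAt_snd (𝕜 := ℝ) (p := q)).mul (hs.pow 2)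
      rw [h2.fderiv, h3.fderiv]
      simp only [add_apply, smul_apply, s1, s2,
        ContinuousLinearMap.coe_fst', ContinuousLinearMap.coe_snd', smul_eq_mul, slice]
      norm_num
      ring
    apply setIntegral_mono_on
    · exact intOn_disc ((d1.pow 2).sub ((d2.pow 2).add (d3.pow 2)))
    · have hcont : ContinuousOn (fun q : ℝ × ℝ => 2 * w (q.1, q.2, z) ^ 2 + 2 * w (q.1, q.2, z) *
          (q.1 * D1 w (q.1, q.2, z) + q.2 * D2 w (q.1, q.2, z))) cDsc :=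
        (continuousOn_const.mul (d1.pow 2)).add ((continuousOn_const.mul d1).mul
          ((continuousOn_fst.mul d2).add (continuousOn_snd.mul d3)))
      exact (intOn_disc hcont).congr_fun (fun q hq => (hder q hq).symm) measurableSet_Dsc
    · exact measurableSet_Dsc
    · intro q hq
      rw [hder q hq]
      set a := w (q.1, q.2, z)
      set b := D1 w (q.1, q.2, z)
      set c := D2 w (q.1, q.2, z)
      have hq' : q.1 ^ 2 + q.2 ^ 2 < 1 := hq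
      have h1 : (q.1 * b + q.2 * c) ^ 2 ≤ b ^ 2 + c ^ 2 := by
        have : (q.1 * b + q.2 * c) ^ 2 ≤ (q.1 ^ 2 + q.2 ^ 2) * (b ^ 2 + c ^ 2) := by
          nlinarith [sq_nonneg (q.1 * c - q.2 * b)]
        nlinarith [sq_nonneg b, sq_nonneg c]
      nlinarith [sq_nonneg (a + (q.1 * b + q.2 * c))]
  -- integrate over z
  have hF : ContinuousOn (fun p => w p ^ 2 - (D1 w p ^ 2 + D2 w p ^ 2)) (cCyl L) := by fun_prop
  have h1 : (∫ p in Cyl L, (w p ^ 2 - (D1 w p ^ 2 + D2 w p ^ 2))) ≤ bdry L w := by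
    rw [cyl_fubini hL.le hF]
    unfold bdry
    have cg : Continuous (fun z => ∫ φ in (0 : ℝ)..(2 * π), w (cos φ, sin φ, z) ^ 2) := by
      apply intervalIntegral.continuous_parametric_intervalIntegral_of_continuous'
      exact (cont_bdry hw).pow 2
    by_cases hi : IntervalIntegrable (fun z => ∫ q in Dsc, (w (q.1, q.2, z) ^ 2 -
      (D1 w (q.1, q.2, z) ^ 2 + D2 w (q.1, q.2, z) ^ 2))) volume 0 L
    · exact intervalIntegral.integral_mono_on hL.le hi (cg.intervalIntegrable _ _) key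
    · rw [intervalIntegral.integral_undef hi]
      exact bdry_nonneg hL.le w
  have h2 : (∫ p in Cyl L, (w p ^ 2 - (D1 w p ^ 2 + D2 w p ^ 2))) =
      (∫ p in Cyl L, w p ^ 2) - ∫ p in Cyl L, (D1 w p ^ 2 + D2 w p ^ 2) :=
    integral_sub (intOn (by fun_prop)) (intOn (by fun_prop))
  have h3 : 2 * (∫ p in Cyl L, (D1 w p ^ 2 + D2 w p ^ 2)) ≤
      ∫ p in Cyl L, 8 * ((D1 w p) ^ 2 + (D2 w p) ^ 2 + (D3 w p) ^ 2) := by
    rw [← integral_const_mul]
    apply setIntegral_mono_on (intOn (by fun_prop)) (intOn (by fun_prop)) (measurableSet_Cyl _)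
    intro p _
    nlinarith [sq_nonneg (D1 w p), sq_nonneg (D2 w p), sq_nonneg (D3 w p)]
  unfold E0
  linarith

end Pool.Agent.TH600.YT
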