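import Pool.Agent.TH600.YT.Pieces

/-! Assembly of the pieces. -/

set_option autoImplicit false

open MeasureTheory Real Set
open scoped ContDiff
namespace Pool.Agent.TH600.YT

theorem pi_bound : (27.6 : ℝ) ≤ 6 * π ^ (4 / 3 : ℝ) := by
  have h1 : (4.6 : ℝ) ≤ π ^ (4 / 3 : ℝ) := by
    have h2 : (4.6 : ℝ) = ((4.6 : ℝ) ^ (3 : ℝ)) ^ (1 / 3 : ℝ) := by
      rw [← Real.rpow_mul (by norm_num)]; norm_num
    have h3 : π ^ (4 / 3 : ℝ) = (π ^ (4 : ℝ)) ^ (1 / 3 : ℝ) := by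
      rw [← Real.rpow_mul pi_pos.le]; norm_num
    rw [h2, h3]
    apply Real.rpow_le_rpow (by positivity) _ (by norm_num)
    have h4 : (3.1415 : ℝ) < π := Real.pi_gt_d4
    have h5 : ((4.6 : ℝ) ^ (3 : ℝ)) = 4.6 ^ 3 := by norm_cast
    have h6 : (π ^ (4 : ℝ)) = π ^ 4 := by norm_cast
    rw [h5, h6]
    calc (4.6 : ℝ) ^ 3 ≤ 3.1415 ^ 4 := by norm_num
      _ ≤ π ^ 4 := by gcongr
  linarith

/-- lower bound for the flat cylinder -/
theorem flat_lower (q : ℝ) (hq : 0 ≤ q)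
    (h : ∀ v : ℝ × ℝ × ℝ → ℝ, Adm (2 * π) v →
      q * (∫ p in Cyl (2 * π), Ay p * v p ^ 6) ^ (1 / 3 : ℝ) ≤ Ey 1 (2 * π) v)
    (C : ℝ) (hC : 0 ≤ C)
    (hper : ∀ L : ℝ, 1 ≤ L → ∀ w : ℝ × ℝ × ℝ → ℝ, Adm L w →
      6 * π ^ (4 / 3 : ℝ) * (∫ p in Cyl L, ch * Ah p * w p ^ 6) ^ (1 / 3 : ℝ) ≤
        Eh ch L w + C / L ^ 2 * ∫ p in Cyl L, w p ^ 2)
    (k : ℕ) (hk : 0 < k) (L : ℝ) (hL1 : 1 ≤ L) (hLk : 183 / 200 * L = 2 * π * k)
    (w : ℝ × ℝ × ℝ → ℝ) (hw : Adm L w) :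
    (27.6 * 0.209 + 0.7705 * q) * (∫ p in Cyl L, w p ^ 6) ^ (1 / 3 : ℝ) ≤
      (1 + C / L ^ 2) * E0 L w := by
  have hL : 0 < L := by linarith
  obtain ⟨hN, -⟩ := vol_pos L hL w hw
  set N := ∫ p in Cyl L, w p ^ 6 with hNdef
  obtain ⟨ha1, ha2⟩ := adm_mul L w hw
  obtain ⟨hb1, hb2, hb3⟩ := int_lower L w hw
  have hl2 := l2_bound div_disc' L hL w hw
  have hc := combo L hL w hw
  have hp := hper L hL1 _ ha1
  -- hyperbolic part
  obtain ⟨hs1, hs2, hs3⟩ := ey_scale L (183 / 200) hL (by norm_num) _ ha2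
  have hs1' : Adm (2 * π * k) (fun p => (fun p => √(Gy p) * w p) (p.1, p.2.1, p.2.2 / (183 / 200))) := by
    rw [← hLk]; exact hs1
  have hw1 := wrap q hq h k hk _ hs1'
  rw [← hLk, hs2, hs3] at hw1
  have hcy : (1 / (183 / 200) : ℝ) ^ 2 = cy := by unfold cy; norm_num
  rw [hcy] at hw1
  have hN3 : (N ^ (1 / 3 : ℝ)) ^ 3 = N := by
    rw [← Real.rpow_natCast, ← Real.rpow_mul hN.le]; norm_num
  have hn0 : 0 ≤ N ^ (1 / 3 : ℝ) := by positivity
  have key1 : (183 / 200 : ℝ) * (0.7705 * N ^ (1 / 3 : ℝ)) ≤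
      (183 / 200 * ∫ p in Cyl L, Ay p * (√(Gy p) * w p) ^ 6) ^ (1 / 3 : ℝ) := by
    have h1 : (183 / 200 : ℝ) * (0.7705 * N ^ (1 / 3 : ℝ)) =
        (((183 / 200 : ℝ) * (0.7705 * N ^ (1 / 3 : ℝ))) ^ 3) ^ (1 / 3 : ℝ) := by
      rw [← Real.rpow_natCast, ← Real.rpow_mul (by positivity)]; norm_num
    rw [h1]
    apply Real.rpow_le_rpow (by positivity) _ (by norm_num)
    have h2 : ((183 / 200 : ℝ) * (0.7705 * N ^ (1 / 3 : ℝ))) ^ 3 =
        (183 / 200) * (((7705 / 10000 : ℝ) ^ 3 * N) * (183 / 200) ^ 2) := by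
      rw [mul_pow, mul_pow, hN3]; ring
    rw [h2]
    apply mul_le_mul_of_nonneg_left _ (by norm_num)
    have h3 : (∫ p in Cyl L, Ay p * (√(Gy p) * w p) ^ 6) =
        (cy * (∫ p in Cyl L, Ay p * (√(Gy p) * w p) ^ 6)) * (183 / 200) ^ 2 := by
      unfold cy; ring
    rw [h3]
    apply mul_le_mul_of_nonneg_right hb2 (by norm_num)
  have key2 : q * (0.7705 * N ^ (1 / 3 : ℝ)) ≤ Ey cy L (fun p => √(Gy p) * w p) := by
    have h4 : q * ((183 / 200 : ℝ) * (0.7705 * N ^ (1 / 3 : ℝ))) ≤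
        183 / 200 * Ey cy L (fun p => √(Gy p) * w p) :=
      (mul_le_mul_of_nonneg_left key1 hq).trans hw1
    nlinarith [h4]
  -- hemisphere part
  have key3 : 27.6 * (0.209 * N ^ (1 / 3 : ℝ)) ≤
      6 * π ^ (4 / 3 : ℝ) * (∫ p in Cyl L, ch * Ah p * (√(Gh p) * w p) ^ 6) ^ (1 / 3 : ℝ) := by
    apply mul_le_mul pi_bound _ (by positivity) (by positivity)
    have h1 : (0.209 * N ^ (1 / 3 : ℝ)) = ((0.209 * N ^ (1 / 3 : ℝ)) ^ 3) ^ (1 / 3 : ℝ) := by
      rw [← Real.rpow_natCast, ← Real.rpow_mul (by positivity)]; norm_num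
    rw [h1]
    apply Real.rpow_le_rpow (by positivity) _ (by norm_num)
    rw [mul_pow, hN3]
    calc (0.209 : ℝ) ^ 3 * N = (209 / 1000 : ℝ) ^ 3 * N := by norm_num
      _ ≤ _ := hb1
  have key4 : C / L ^ 2 * ∫ p in Cyl L, (√(Gh p) * w p) ^ 2 ≤ C / L ^ 2 * E0 L w := by
    apply mul_le_mul_of_nonneg_left _ (by positivity)
    have h5 : 0 ≤ ∫ p in Cyl L, w p ^ 2 := by
      apply MeasureTheory.integral_nonneg
      intro p; positivity
    linarith
  have e1 : (27.6 * 0.209 + 0.7705 * q) * N ^ (1 / 3 : ℝ) =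
      27.6 * (0.209 * N ^ (1 / 3 : ℝ)) + q * (0.7705 * N ^ (1 / 3 : ℝ)) := by ring
  rw [e1]
  have e2 : (1 + C / L ^ 2) * E0 L w = E0 L w + C / L ^ 2 * E0 L w := by ring
  rw [e2]
  linarith

theorem torusQ_nonneg (R : ℝ) (hR : 2 < R) : 0 ≤ torusQ R := by
  unfold torusQ
  apply le_iInf
  rintro ⟨u, hu⟩
  obtain ⟨h1, h2, h3⟩ := torus_flat R hR u hu
  have hV := torusVol6_pos R (by linarith) u hu
  have hE : 0 ≤ torusEnergy R u := by
    refine le_trans ?_ h2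
    apply mul_nonneg
    · have : 2 / R ≤ 1 := by rw [div_le_one (by linarith)]; exact hR.le
      linarith
    · have := l2_bound div_disc' _ (by positivity : 0 < 2 * π * R) _ h1
      refine le_trans ?_ this
      apply mul_nonneg (by norm_num)
      apply MeasureTheory.integral_nonneg
      intro p; positivity
  have : 0 ≤ torusEnergy R u / (torusVol6 R u) ^ (1 / 3 : ℝ) := by positivity
  exact_mod_cast this

theorem torusQ_le (R : ℝ) (u : ℝ × ℝ × ℝ → ℝ) (hu : Adm (2 * π) u) :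
    torusQ R ≤ ((torusEnergy R u / (torusVol6 R u) ^ (1 / 3 : ℝ) : ℝ) : EReal) :=
  iInf_le (fun u : {u : ℝ × ℝ × ℝ → ℝ // Adm (2 * π) u} =>
    ((torusEnergy R u.1 / (torusVol6 R u.1) ^ (1 / 3 : ℝ) : ℝ) : EReal)) ⟨u, hu⟩

theorem clifford_le
    (clifford_bridge : ∀ v : ℝ × ℝ × ℝ → ℝ, Adm (2 * π) v →
      ∃ u : ℝ × ℝ × ℝ → ℝ, Adm (2 * π) u ∧ torusEnergy (√2) u = Ey 1 (2 * π) v ∧
        torusVol6 (√2) u = ∫ p in Cyl (2 * π), Ay p * v p ^ 6) :
    torusQ (√2) < ((24.8 : ℝ) : EReal) := by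
  obtain ⟨v, hv, hlt⟩ := clifford_upper
  obtain ⟨u, hu, hE, hN⟩ := clifford_bridge v hv
  have hpos := (vol_pos (2 * π) (by positivity) v hv).2
  refine lt_of_le_of_lt (torusQ_le _ u hu) ?_
  rw [hE, hN, EReal.coe_lt_coe_iff, div_lt_iff₀ (by positivity)]
  exact hlt

theorem main_of
    (clifford_bridge : ∀ v : ℝ × ℝ × ℝ → ℝ, Adm (2 * π) v →
      ∃ u : ℝ × ℝ × ℝ → ℝ, Adm (2 * π) u ∧ torusEnergy (√2) u = Ey 1 (2 * π) v ∧
        torusVol6 (√2) u = ∫ p in Cyl (2 * π), Ay p * v p ^ 6) :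
    ∃ R : ℝ, 1 < R ∧ torusQ (√2) < torusQ R := by
  by_cases hneg : torusQ (√2) < 0
  · exact ⟨3, by norm_num, lt_of_lt_of_le hneg (torusQ_nonneg 3 (by norm_num))⟩
  push_neg at hneg
  have hle := clifford_le clifford_bridge
  -- the value as a real number
  obtain ⟨q, hq⟩ : ∃ q : ℝ, (q : EReal) = torusQ (√2) := by
    refine ⟨(torusQ (√2)).toReal, EReal.coe_toReal ?_ ?_⟩
    · exact ne_of_lt (lt_of_lt_of_le hle le_top)
    · intro hbot
      rw [hbot] at hneg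
      exact absurd hneg (by simp)
  rw [← hq] at hneg hle ⊢
  have hq0 : 0 ≤ q := by exact_mod_cast hneg
  have hq1 : q < 24.8 := by exact_mod_cast hle
  have hlow : ∀ v : ℝ × ℝ × ℝ → ℝ, Adm (2 * π) v →
      q * (∫ p in Cyl (2 * π), Ay p * v p ^ 6) ^ (1 / 3 : ℝ) ≤ Ey 1 (2 * π) v := by
    intro v hv
    obtain ⟨u, hu, hE, hN⟩ := clifford_bridge v hv
    have hpos := (vol_pos (2 * π) (by positivity) v hv).2
    have h1 : (q : EReal) ≤ ((torusEnergy (√2) u / (torusVol6 (√2) u) ^ (1 / 3 : ℝ) : ℝ) : EReal) := by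
      rw [hq]; exact torusQ_le _ u hu
    rw [EReal.coe_le_coe_iff, hE, hN, le_div_iff₀ (by positivity)] at h1
    exact h1
  obtain ⟨C, hC, hper⟩ := hemi_periodic ch (by unfold ch; norm_num)
  -- choose k large
  obtain ⟨k, hk⟩ := exists_nat_gt (max 4000 (4000 * C))
  have hk1 : (4000 : ℝ) < k := lt_of_le_of_lt (le_max_left _ _) hk
  have hk2 : 4000 * C < k := lt_of_le_of_lt (le_max_right _ _) hk
  have hk0 : 0 < k := by
    have : (0 : ℝ) < k := by linarith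
    exact_mod_cast this
  set R : ℝ := 200 / 183 * k with hR
  have hRk : (4000 : ℝ) < R := by rw [hR]; linarith
  have hRC : 4000 * C < R := by rw [hR]; linarith
  refine ⟨R, by linarith, ?_⟩
  suffices h : ((q + 0.001 : ℝ) : EReal) ≤ torusQ R by
    refine lt_of_lt_of_le ?_ h
    rw [EReal.coe_lt_coe_iff]; linarith
  unfold torusQ
  apply le_iInf
  rintro ⟨u, hu⟩
  obtain ⟨h1, h2, h3⟩ := torus_flat R (by linarith) u hu
  have hV := torusVol6_pos R (by linarith) u hu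
  set w : ℝ × ℝ × ℝ → ℝ := fun p => u (p.1, p.2.1, p.2.2 / R) with hwdef
  set L := 2 * π * R with hLdef
  have hpi := Real.pi_gt_three
  have hL1 : 1 ≤ L := by rw [hLdef]; nlinarith
  have hLk : 183 / 200 * L = 2 * π * k := by rw [hLdef, hR]; ring
  have h4 := flat_lower q hq0 hlow C hC hper k hk0 L hL1 hLk w h1
  have hN := (vol_pos L (by linarith) w h1).1
  set N := ∫ p in Cyl L, w p ^ 6 with hNdef
  set n := N ^ (1 / 3 : ℝ) with hn
  have hn0 : 0 < n := by positivity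
  have hn3 : n ^ 3 = N := by
    rw [hn, ← Real.rpow_natCast, ← Real.rpow_mul hN.le]; norm_num
  have hCL : C / L ^ 2 ≤ 1 / 4000 := by
    rw [div_le_div_iff₀ (by positivity) (by norm_num)]
    have : R ≤ L := by rw [hLdef]; nlinarith
    nlinarith
  have hCL0 : 0 ≤ C / L ^ 2 := by positivity
  have h2R : 2 / R ≤ 1 / 2000 := by
    rw [div_le_div_iff₀ (by positivity) (by norm_num)]; linarith
  have h1R : 1 / R ≤ 1 / 4000 := by
    rw [div_le_div_iff₀ (by positivity) (by norm_num)]; linarith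
  have h1R0 : 0 < 1 / R := by positivity
  -- energy lower bound
  have hE0 : 0 ≤ E0 L w := by
    have := l2_bound div_disc' L (by linarith) w h1
    refine le_trans ?_ this
    apply mul_nonneg (by norm_num)
    apply MeasureTheory.integral_nonneg
    intro p; positivity
  have h5 : (27.6 * 0.209 + 0.7705 * q) * n ≤ (1 + 1 / 4000) * E0 L w := by
    refine h4.trans ?_
    apply mul_le_mul_of_nonneg_right _ hE0
    linarith
  have h6 : (1 - 1 / 2000) * E0 L w ≤ torusEnergy R u := by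
    refine le_trans ?_ h2
    apply mul_le_mul_of_nonneg_right _ hE0
    linarith
  -- volume upper bound
  have h7 : (torusVol6 R u) ^ (1 / 3 : ℝ) ≤ (1 + 1 / 4000) * n := by
    have h8 : (1 + 1 / 4000) * n = (((1 + 1 / 4000) * n) ^ 3) ^ (1 / 3 : ℝ) := by
      rw [← Real.rpow_natCast, ← Real.rpow_mul (by positivity)]; norm_num
    rw [h8]
    apply Real.rpow_le_rpow hV.le _ (by norm_num)
    rw [mul_pow, hn3]
    refine h3.trans ?_
    apply mul_le_mul_of_nonneg_right _ hN.le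
    have : (1 + 1 / 4000 : ℝ) ≤ (1 + 1 / 4000) ^ 3 := by norm_num
    linarith
  rw [EReal.coe_le_coe_iff, le_div_iff₀ (by positivity)]
  have h9 : (q + 0.001) * (torusVol6 R u) ^ (1 / 3 : ℝ) ≤ (q + 0.001) * ((1 + 1 / 4000) * n) :=
    mul_le_mul_of_nonneg_left h7 (by linarith)
  refine h9.trans ?_
  -- (q+0.001)(1+1/4000) n ≤ (1-1/2000) E0
  have h10 : (q + 0.001) * ((1 + 1 / 4000) * n) ≤ (1 - 1 / 2000) * E0 L w := by
    have h11 : (q + 0.001) * (1 + 1 / 4000) * (1 + 1 / 4000) ≤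
        (1 - 1 / 2000) * (27.6 * 0.209 + 0.7705 * q) := by
      nlinarith
    have h12 := mul_le_mul_of_nonneg_right h11 hn0.le
    have h13 := mul_le_mul_of_nonneg_left h5 (by norm_num : (0 : ℝ) ≤ 1 - 1 / 2000)
    have h14 : (q + 0.001) * ((1 + 1 / 4000) * n) * (1 + 1 / 4000) ≤
        (1 - 1 / 2000) * E0 L w * (1 + 1 / 4000) := by
      calc _ = (q + 0.001) * (1 + 1 / 4000) * (1 + 1 / 4000) * n := by ring
        _ ≤ (1 - 1 / 2000) * (27.6 * 0.209 + 0.7705 * q) * n := h12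
        _ = (1 - 1 / 2000) * ((27.6 * 0.209 + 0.7705 * q) * n) := by ring
        _ ≤ (1 - 1 / 2000) * ((1 + 1 / 4000) * E0 L w) := h13
        _ = _ := by ring
    exact le_of_mul_le_mul_right h14 (by norm_num)
  exact h10.trans h6

end Pool.Agent.TH600.YT
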