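import Pool.Agent.TH600.YT.Easy

set_option autoImplicit false

open MeasureTheory Real Set
open scoped ContDiff

namespace Pool.Agent.TH600.YT

/-- `p ↦ (p.1, p.2.1, p.2.2 / l)` as a continuous linear map. -/
noncomputable def sc (l : ℝ) : ℝ × ℝ × ℝ →L[ℝ] ℝ × ℝ × ℝ :=
  (ContinuousLinearMap.fst ℝ ℝ (ℝ × ℝ)).prod
    (((ContinuousLinearMap.fst ℝ ℝ ℝ).comp (ContinuousLinearMap.snd ℝ ℝ (ℝ × ℝ))).prod
      ((1 / l) • ((ContinuousLinearMap.snd ℝ ℝ ℝ).comp (ContinuousLinearMap.snd ℝ ℝ (ℝ × ℝ)))))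

theorem sc_apply (l : ℝ) (p : ℝ × ℝ × ℝ) : sc l p = (p.1, p.2.1, p.2.2 / l) := by
  simp [sc, div_eq_inv_mul]

theorem hasFDerivAt_sc {w : ℝ × ℝ × ℝ → ℝ} {l : ℝ} {p : ℝ × ℝ × ℝ}
    (hw : DifferentiableAt ℝ w (p.1, p.2.1, p.2.2 / l)) :
    HasFDerivAt (fun p : ℝ × ℝ × ℝ => w (p.1, p.2.1, p.2.2 / l))
      ((fderiv ℝ w (p.1, p.2.1, p.2.2 / l)).comp (sc l)) p := by
  have h1 : HasFDerivAt (sc l) (sc l) p := (sc l).hasFDerivAt
  have h2 : HasFDerivAt w (fderiv ℝ w (sc l p)) (sc l p) := by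
    rw [sc_apply]; exact hw.hasFDerivAt
  have h3 := h2.comp p h1
  rw [sc_apply] at h3
  refine h3.congr_of_eventuallyEq ?_
  filter_upwards with q
  simp [sc_apply]

theorem D_sc {w : ℝ × ℝ × ℝ → ℝ} {l : ℝ} {p : ℝ × ℝ × ℝ}
    (hw : DifferentiableAt ℝ w (p.1, p.2.1, p.2.2 / l)) :
    D1 (fun p : ℝ × ℝ × ℝ => w (p.1, p.2.1, p.2.2 / l)) p = D1 w (p.1, p.2.1, p.2.2 / l) ∧
    D2 (fun p : ℝ × ℝ × ℝ => w (p.1, p.2.1, p.2.2 / l)) p = D2 w (p.1, p.2.1, p.2.2 / l) ∧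
    D3 (fun p : ℝ × ℝ × ℝ => w (p.1, p.2.1, p.2.2 / l)) p = D3 w (p.1, p.2.1, p.2.2 / l) / l := by
  have h := (hasFDerivAt_sc hw).fderiv
  refine ⟨?_, ?_, ?_⟩
  · simp only [D1, h, ContinuousLinearMap.comp_apply, sc_apply, zero_div]
  · simp only [D2, h, ContinuousLinearMap.comp_apply, sc_apply, zero_div]
  · simp only [D3, h, ContinuousLinearMap.comp_apply, sc_apply]
    have : ((0 : ℝ), (0 : ℝ), 1 / l) = (1 / l) • ((0 : ℝ), (0 : ℝ), (1 : ℝ)) := by simp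
    rw [this, map_smul, smul_eq_mul]
    ring

theorem adm_sc {L l : ℝ} (hl : 0 < l) {w : ℝ × ℝ × ℝ → ℝ} (hw : Adm L w) :
    Adm (l * L) (fun p => w (p.1, p.2.1, p.2.2 / l)) := by
  refine ⟨?_, ?_, ?_⟩
  · intro x y z h
    have h1 := hw.smooth x y (z / l) h
    have h2 : ContDiffAt ℝ ∞ (sc l) (x, y, z) := (sc l).contDiff.contDiffAt
    have h1' : ContDiffAt ℝ ∞ w (sc l (x, y, z)) := by rw [sc_apply]; exact h1
    have h3 := h1'.comp (x, y, z) h2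
    refine h3.congr_of_eventuallyEq ?_
    filter_upwards with q
    simp [sc_apply]
  · intro x y z
    have : (z + l * L) / l = z / l + L := by field_simp
    simp only [this, hw.periodic]
  · intro x y z h
    exact hw.pos x y (z / l) h

theorem int_scale {L l : ℝ} (hL : 0 ≤ L) (hl : 0 < l) {F : ℝ × ℝ × ℝ → ℝ}
    (hF : ContinuousOn F (cCyl L)) :
    ∫ p in Cyl (l * L), F (p.1, p.2.1, p.2.2 / l) = l * ∫ p in Cyl L, F p := by
  have hF2 : ContinuousOn (fun p : ℝ × ℝ × ℝ => F (p.1, p.2.1, p.2.2 / l)) (cCyl (l * L)) := by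
    apply hF.comp (by fun_prop)
    rintro ⟨x, y, z⟩ ⟨h1, h2, h3⟩
    refine ⟨h1, div_nonneg h2 hl.le, ?_⟩
    simp only at h3 ⊢
    rw [div_le_iff₀ hl]; linarith
  rw [cyl_fubini (by positivity) hF2, cyl_fubini hL hF]
  rw [intervalIntegral.integral_comp_div
    (fun z => ∫ q in Dsc, F (q.1, q.2, z)) hl.ne']
  simp only [zero_div, smul_eq_mul]
  congr 2
  field_simp

theorem bdry_scale {L l : ℝ} (hl : 0 < l) (w : ℝ × ℝ × ℝ → ℝ) :
    bdry (l * L) (fun p => w (p.1, p.2.1, p.2.2 / l)) = l * bdry L w := by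
  unfold bdry
  simp only
  rw [intervalIntegral.integral_comp_div
    (fun z => ∫ φ in (0 : ℝ)..(2 * π), w (cos φ, sin φ, z) ^ 2) hl.ne']
  simp only [zero_div, smul_eq_mul]
  congr 2
  field_simp

theorem ey_scale (L l : ℝ) (hL : 0 < L) (hl : 0 < l) (w : ℝ × ℝ × ℝ → ℝ) (hw : Adm L w) :
    Adm (l * L) (fun p => w (p.1, p.2.1, p.2.2 / l)) ∧
    Ey 1 (l * L) (fun p => w (p.1, p.2.1, p.2.2 / l)) = l * Ey ((1 / l) ^ 2) L w ∧
    ∫ p in Cyl (l * L), Ay p * w (p.1, p.2.1, p.2.2 / l) ^ 6 = l * ∫ p in Cyl L, Ay p * w p ^ 6 := by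
  have c1 := hw.continuousOn
  have c2 := hw.continuousOn_D1
  have c3 := hw.continuousOn_D2
  have c4 := hw.continuousOn_D3
  have c5 := continuousOn_Ay L
  refine ⟨adm_sc hl hw, ?_, ?_⟩
  · unfold Ey
    rw [bdry_scale hl w, mul_add]
    congr 1
    · rw [← int_scale hL.le hl (F := fun p => 8 * (D1 w p ^ 2 + D2 w p ^ 2) +
        Ay p * (8 * (1 / l) ^ 2 * D3 w p ^ 2 - 2 * w p ^ 2)) (by fun_prop)]
      apply setIntegral_congr_fun (measurableSet_Cyl _)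
      intro p hp
      have hd : DifferentiableAt ℝ w (p.1, p.2.1, p.2.2 / l) :=
        (hw.smooth p.1 p.2.1 (p.2.2 / l) hp.1.le).differentiableAt (by simp)
      obtain ⟨e1, e2, e3⟩ := D_sc hd
      simp only [e1, e2, e3, Ay, sq]
      ring
    · ring
  · rw [← int_scale hL.le hl (F := fun p => Ay p * w p ^ 6) (by fun_prop)]
    rfl

end Pool.Agent.TH600.YT
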