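import Pool.Agent.TH600.YT.Defs
import Pool.Agent.TH600.YT.Basic
import Pool.Agent.TH600.YT.Easy
import Pool.Agent.TH600.YT.Scale
import Pool.Agent.TH600.YT.Flat
import Pool.Agent.TH600.YT.L2
import Pool.Agent.TH558.J738
import Pool.Agent.TH511.J739
import Pool.Agent.TH511.J740
import Pool.Agent.TH511.J741
import Pool.Agent.TH597.J742
import Pool.Agent.TH558.J743
import Pool.Agent.TH830.J745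
import Pool.Agent.TH830.J746
import Pool.Agent.TH298.J747

set_option autoImplicit false
open MeasureTheory Real Set
open scoped ContDiff
namespace Pool.Agent.TH600.YT

/-- divergence theorem on the disc -/
theorem div_disc' (X Y : ℝ × ℝ → ℝ)
    (hX : ∀ p : ℝ × ℝ, p.1 ^ 2 + p.2 ^ 2 ≤ 1 → ContDiffAt ℝ 1 X p)
    (hY : ∀ p : ℝ × ℝ, p.1 ^ 2 + p.2 ^ 2 ≤ 1 → ContDiffAt ℝ 1 Y p) :
    ∫ p in {p : ℝ × ℝ | p.1 ^ 2 + p.2 ^ 2 < 1}, (fderiv ℝ X p (1, 0) + fderiv ℝ Y p (0, 1)) =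
      ∫ φ in (0 : ℝ)..(2 * π), (X (cos φ, sin φ) * cos φ + Y (cos φ, sin φ) * sin φ) :=
  Pool.Agent.TH558.YT738.div_disc X Y hX hY

/-- sharp Sobolev inequality on the half space -/
theorem halfSpace' (U : ℝ × ℝ × ℝ → ℝ)
    (hU : ∀ p : ℝ × ℝ × ℝ, 0 ≤ p.2.2 → ContDiffAt ℝ 1 U p)
    (h0 : ∀ p : ℝ × ℝ × ℝ, 0 ≤ p.2.2 → 0 ≤ U p) (M : ℝ)
    (hM : ∀ p : ℝ × ℝ × ℝ, 0 ≤ p.2.2 → M ≤ ‖p‖ → U p = 0) :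
    216 * π ^ 4 * (∫ p in {p : ℝ × ℝ × ℝ | 0 < p.2.2}, U p ^ 6) ≤
      (8 * ∫ p in {p : ℝ × ℝ × ℝ | 0 < p.2.2}, ((D1 U p) ^ 2 + (D2 U p) ^ 2 + (D3 U p) ^ 2)) ^ 3 :=
  Pool.Agent.TH511.YT741.halfSpace
    (fun f hf h0 hs => Pool.Agent.TH511.YT740.two_dim
      (fun f hf h0 hs K hK => Pool.Agent.TH511.YT739.one_dim f hf h0 hs K hK) f hf h0 hs)
    U hU h0 M hM

/-- the same in polar coordinates -/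
theorem hemi_line' (w : ℝ × ℝ × ℝ → ℝ)
    (hw : ∀ x y z : ℝ, x ^ 2 + y ^ 2 ≤ 1 → ContDiffAt ℝ 1 w (x, y, z))
    (h0 : ∀ x y z : ℝ, x ^ 2 + y ^ 2 ≤ 1 → 0 ≤ w (x, y, z)) (M : ℝ)
    (hM : ∀ x y z : ℝ, x ^ 2 + y ^ 2 ≤ 1 → M ≤ |z| → w (x, y, z) = 0) :
    216 * π ^ 4 * (∫ p in {p : ℝ × ℝ × ℝ | p.1 ^ 2 + p.2.1 ^ 2 < 1}, Ah p * w p ^ 6) ≤
      (∫ p in {p : ℝ × ℝ × ℝ | p.1 ^ 2 + p.2.1 ^ 2 < 1},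
        (8 * ((D1 w p) ^ 2 + (D2 w p) ^ 2) + Ah p * (8 * (D3 w p) ^ 2 + 2 * (w p) ^ 2))) ^ 3 :=
  Pool.Agent.TH597.YT742.hemi_line halfSpace' w hw h0 M hM

/-- periodic version -/
theorem hemi_periodic (c : ℝ) (hc : 0 < c) : ∃ C : ℝ, 0 ≤ C ∧ ∀ L : ℝ, 1 ≤ L →
    ∀ w : ℝ × ℝ × ℝ → ℝ, Adm L w →
    6 * π ^ (4 / 3 : ℝ) * (∫ p in Cyl L, c * Ah p * w p ^ 6) ^ (1 / 3 : ℝ) ≤
      Eh c L w + C / L ^ 2 * ∫ p in Cyl L, w p ^ 2 :=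
  Pool.Agent.TH558.YT743.hemi_periodic hemi_line' c hc

/-- upper bound -/
theorem clifford_upper : ∃ v : ℝ × ℝ × ℝ → ℝ, Adm (2 * π) v ∧
    Ey 1 (2 * π) v < 24.8 * (∫ p in Cyl (2 * π), Ay p * v p ^ 6) ^ (1 / 3 : ℝ) :=
  Pool.Agent.TH830.YT745.clifford_upper

/-- wrapping -/
theorem wrap (q : ℝ) (hq : 0 ≤ q)
    (h : ∀ v : ℝ × ℝ × ℝ → ℝ, Adm (2 * π) v →
      q * (∫ p in Cyl (2 * π), Ay p * v p ^ 6) ^ (1 / 3 : ℝ) ≤ Ey 1 (2 * π) v)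
    (k : ℕ) (hk : 0 < k) (w : ℝ × ℝ × ℝ → ℝ) (hw : Adm (2 * π * k) w) :
    q * (∫ p in Cyl (2 * π * k), Ay p * w p ^ 6) ^ (1 / 3 : ℝ) ≤ Ey 1 (2 * π * k) w :=
  Pool.Agent.TH830.YT746.wrap q hq h k hk w hw

/-- the pointwise combination -/
theorem combo (L : ℝ) (hL : 0 < L) (w : ℝ × ℝ × ℝ → ℝ) (hw : Adm L w) :
    Eh ch L (fun p => √(Gh p) * w p) + Ey cy L (fun p => √(Gy p) * w p) ≤ E0 L w :=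
  Pool.Agent.TH298.YT747.combo div_disc' L hL w hw

end Pool.Agent.TH600.YT
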